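import Pool.Agent.Helper63.P705.NUM.Goals

/-!
# MP_705522_gt, packet NUM-N2: rounding errors of `gser` and `gent`
-/

namespace Pool.Agent.Helper5.P705

open Pool.Agent.Helper63.P705

/-- the Horner sums -/
noncomputable def sA (n : ℕ) (x : ℝ) : ℝ :=
  x * ∑ k ∈ Finset.range (n + 1), (80 : ℝ) ^ k / ∏ i ∈ Finset.range (k + 1), (x + i)

theorem sA_zero {x : ℝ} (hx : 0 < x) : sA 0 x = 1 := by
  simp [sA, hx.ne']

theorem sA_succ {x : ℝ} (hx : 0 < x) (n : ℕ) : sA (n + 1) x = 1 + 80 * sA n (x + 1) / (x + 1) := by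
  have hx1 : x + 1 ≠ 0 := by positivity
  unfold sA
  rw [Finset.sum_range_succ', mul_add]
  have h0 : x * ((80 : ℝ) ^ 0 / ∏ i ∈ Finset.range (0 + 1), (x + i)) = 1 := by
    simp [hx.ne']
  rw [h0, add_comm]
  congr 1
  rw [Finset.mul_sum, Finset.mul_sum, Finset.mul_sum, Finset.sum_div]
  refine Finset.sum_congr rfl fun k _ => ?_
  have h1 : ∏ i ∈ Finset.range (k + 1 + 1), (x + (i : ℝ)) =
      (∏ i ∈ Finset.range (k + 1), (x + 1 + (i : ℝ))) * x := by
    rw [Finset.prod_range_succ']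
    congr 1
    · refine Finset.prod_congr rfl fun i _ => ?_
      push_cast
      ring
    · simp
  rw [h1]
  have h2 : ∏ i ∈ Finset.range (k + 1), (x + 1 + (i : ℝ)) ≠ 0 := by
    refine Finset.prod_ne_zero_iff.2 fun i _ => ?_
    positivity
  field_simp
  ring

theorem one_le_sA (n : ℕ) : ∀ {x : ℝ}, 0 < x → 1 ≤ sA n x := by
  induction n with
  | zero => intro x hx; rw [sA_zero hx]
  | succ n ih =>
    intro x hx
    rw [sA_succ hx]
    have h1 := ih (by linarith : 0 < x + 1)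
    have : 0 ≤ 80 * sA n (x + 1) / (x + 1) := by positivity
    linarith

theorem flo_le (a b : ℕ) : ((a / b : ℕ) : ℝ) ≤ (a : ℝ) / b := Nat.cast_div_le

theorem lt_flo (a b : ℕ) (hb : 0 < b) : (a : ℝ) / b < ((a / b : ℕ) : ℝ) + 1 := by
  have h1 := Nat.div_add_mod a b
  have h2 := Nat.mod_lt a hb
  have h3 : ((b * (a / b) + a % b : ℕ) : ℝ) = a := by rw [h1]
  push_cast at h3
  have h4 : ((a % b : ℕ) : ℝ) < b := by exact_mod_cast h2
  have hb' : (0 : ℝ) < b := by exact_mod_cast hb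
  rw [div_lt_iff₀ hb', ← h3]
  nlinarith

/-- the loop with a general scale -/
theorem lp_bounds (K : ℕ) (r : ℕ) :
    ((K : ℝ) - 212) * sA 212 (1 + (r : ℝ) / 8192) ≤
      (lp 212 (fun i s => K + s * 655360 / (8192 * (i + 2) + r)) K : ℝ) ∧
    (lp 212 (fun i s => K + s * 655360 / (8192 * (i + 2) + r)) K : ℝ) ≤
      K * sA 212 (1 + (r : ℝ) / 8192) := by
  have key := lp_ind (n := 212)
    (f := fun i s => K + s * 655360 / (8192 * (i + 2) + r))
    (fun i acc => i ≤ 212 →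
      ((K : ℝ) - (212 - (i : ℝ))) * sA (212 - i) (1 + (r : ℝ) / 8192 + i) ≤ (acc : ℝ) ∧
      (acc : ℝ) ≤ K * sA (212 - i) (1 + (r : ℝ) / 8192 + i)) (a := K)
    (by
      intro _
      rw [Nat.sub_self, sA_zero (by positivity)]
      push_cast
      constructor <;> linarith)
    (by
      intro i acc hi ih _
      obtain ⟨ih1, ih2⟩ := ih (by omega)
      have hx : (0 : ℝ) < 1 + (r : ℝ) / 8192 + i := by positivity
      have e1 : 212 - i = (212 - (i + 1)) + 1 := by omega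
      have e2 : (1 + (r : ℝ) / 8192 + ((i + 1 : ℕ) : ℝ)) = 1 + (r : ℝ) / 8192 + i + 1 := by
        push_cast
        ring
      rw [e1, sA_succ hx]
      rw [e2] at ih1 ih2
      set σ := sA (212 - (i + 1)) (1 + (r : ℝ) / 8192 + i + 1) with hσ
      have hσ1 : 1 ≤ σ := one_le_sA _ (by positivity)
      set X : ℝ := 1 + (r : ℝ) / 8192 + i + 1 with hX
      have hX0 : 0 < X := by positivity
      set q : ℕ := 8192 * (i + 2) + r with hq
      have hq0 : 0 < q := by omega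
      have hqX : (q : ℝ) = 8192 * X := by
        rw [hq, hX]
        push_cast
        ring
      have f1 := flo_le (acc * 655360) q
      have f2 := lt_flo (acc * 655360) q hq0
      have e3 : ((acc * 655360 : ℕ) : ℝ) / (q : ℝ) = 80 * acc / X := by
        rw [hqX]
        push_cast
        field_simp
        ring
      rw [e3] at f1 f2
      have hu : 80 * (acc : ℝ) / X ≤ K * (80 * σ / X) := by
        have : 80 * (acc : ℝ) / X ≤ 80 * (K * σ) / X := by gcongr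
        calc _ ≤ _ := this
          _ = _ := by ring
      have hl : ((K : ℝ) - (212 - ((i : ℝ) + 1))) * (80 * σ / X) ≤ 80 * (acc : ℝ) / X := by
        have h5 : ((K : ℝ) - (212 - ((i : ℝ) + 1))) * σ ≤ acc := by
          have : ((i + 1 : ℕ) : ℝ) = (i : ℝ) + 1 := by push_cast; ring
          rw [this] at ih1
          exact ih1
        have : 80 * (((K : ℝ) - (212 - ((i : ℝ) + 1))) * σ) / X ≤ 80 * (acc : ℝ) / X := by gcongr
        calc _ = _ := by ring
          _ ≤ _ := this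
      have hy : 0 ≤ 80 * σ / X := by positivity
      have hi' : (i : ℝ) + 1 ≤ 212 := by exact_mod_cast hi
      show _ ≤ ((K + acc * 655360 / q : ℕ) : ℝ) ∧ ((K + acc * 655360 / q : ℕ) : ℝ) ≤ _
      rw [Nat.cast_add]
      set y := 80 * σ / X with hyd
      constructor
      · nlinarith
      · nlinarith) (Nat.zero_le _)
  simpa using key

theorem gser_eq (r : ℕ) :
    gser r = lp 212 (fun i s => 2 ^ 124 + s * 655360 / (8192 * (i + 2) + r)) (2 ^ 124) := by
  have h124 : Nat.shiftLeft 1 124 = 2 ^ 124 := Nat.one_shiftLeft 124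
  unfold gser
  rw [h124]
  rfl

theorem gser_bounds (r : ℕ) :
    (2 ^ 124 - 212) * sA 212 (1 + (r : ℝ) / 8192) ≤ (gser r : ℝ) ∧
      (gser r : ℝ) ≤ 2 ^ 124 * sA 212 (1 + (r : ℝ) / 8192) := by
  have h := lp_bounds (2 ^ 124) r
  rw [← gser_eq] at h
  have e : ((2 ^ 124 : ℕ) : ℝ) = 2 ^ 124 := Nat.cast_pow 2 124
  rw [e] at h
  exact h

theorem gG_bounds {x : ℝ} (h1 : 1 ≤ x) (h2 : x ≤ 2) (hG1 : 1 / 2 ≤ Real.Gamma x)
    (hG2 : Real.Gamma x ≤ 1) : 2 ^ 109 ≤ 256 * gG x ∧ 256 * gG x ≤ 2 ^ 118 := by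
  have e1 : Real.exp 80 = Real.exp 1 ^ 80 := by
    rw [← Real.exp_nat_mul]
    norm_num
  have hl : (2 : ℝ) ^ 115 ≤ Real.exp 80 := by
    rw [e1]
    have := Real.exp_one_gt_d9
    calc (2 : ℝ) ^ 115 ≤ (2.718 : ℝ) ^ 80 := by norm_num
      _ ≤ Real.exp 1 ^ 80 := by gcongr; linarith
  have hu : Real.exp 80 ≤ (2 : ℝ) ^ 116 := by
    rw [e1]
    have := Real.exp_one_lt_d9
    calc Real.exp 1 ^ 80 ≤ (2.7183 : ℝ) ^ 80 := by gcongr; linarith
      _ ≤ 2 ^ 116 := by norm_num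
  have p1 : (80 : ℝ) ^ (-x) ≤ 1 / 80 := by
    calc (80 : ℝ) ^ (-x) ≤ (80 : ℝ) ^ (-1 : ℝ) :=
          Real.rpow_le_rpow_of_exponent_le (by norm_num) (by linarith)
      _ = 1 / 80 := by rw [Real.rpow_neg_one]; norm_num
  have p2 : 1 / 6400 ≤ (80 : ℝ) ^ (-x) := by
    calc (1 : ℝ) / 6400 = (80 : ℝ) ^ (-2 : ℝ) := by
          rw [Real.rpow_neg (by norm_num)]
          norm_num
      _ ≤ (80 : ℝ) ^ (-x) := Real.rpow_le_rpow_of_exponent_le (by norm_num) (by linarith)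
  have hx0 : 0 < (80 : ℝ) ^ (-x) := by positivity
  unfold gG
  constructor
  · calc (2 : ℝ) ^ 109 ≤ 256 * (1 / 2 * (1 / 6400) * 2 ^ 115) := by norm_num
      _ ≤ 256 * (Real.Gamma x * 80 ^ (-x) * Real.exp 80) := by gcongr
  · calc 256 * (Real.Gamma x * 80 ^ (-x) * Real.exp 80) ≤ 256 * (1 * (1 / 80) * 2 ^ 116) := by
          gcongr
      _ ≤ 2 ^ 118 := by norm_num

theorem n2 : Pool.Agent.Helper63.P705.N2 := by
  intro hN1 r hr
  set x : ℝ := 1 + (r : ℝ) / 8192 with hx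
  have hr' : (r : ℝ) < 8192 := by exact_mod_cast hr
  have h1 : 1 ≤ x := by
    rw [hx]
    have : (0 : ℝ) ≤ (r : ℝ) / 8192 := by positivity
    linarith
  have h2 : x ≤ 2 := by
    rw [hx]
    have : (r : ℝ) / 8192 ≤ 1 := by
      rw [div_le_one (by norm_num)]
      exact hr'.le
    linarith
  obtain ⟨hG1, hG2, hS⟩ := hN1 x h1 h2
  obtain ⟨b1, b2⟩ := gG_bounds h1 h2 hG1 hG2
  obtain ⟨c1, c2⟩ := gser_bounds r
  rw [← hx] at c1 c2
  set g := gG x with hg
  set S0 : ℝ := ∑ k ∈ Finset.range 213, (80 : ℝ) ^ k / ∏ i ∈ Finset.range (k + 1), (x + i) with hS0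
  have hsA : sA 212 x = x * S0 := rfl
  rw [hsA] at c1 c2
  have hx0 : 0 < x := by linarith
  have hval : gent r = gser r * 8192 / ((8192 + r) * 2 ^ 116) := by
    have : gent r = (gser r * 2 ^ 13 / (8192 + r)) / 2 ^ 116 := by
      unfold gent
      show ((gser r <<< 13) / (8192 + r)) >>> 116 = _
      rw [Nat.shiftRight_eq_div_pow, Nat.shiftLeft_eq]
    rw [this, Nat.div_div_eq_div_mul]
    norm_num
  have hq0 : 0 < (8192 + r) * 2 ^ 116 := by positivity
  have f1 := flo_le (gser r * 8192) ((8192 + r) * 2 ^ 116)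
  have f2 := lt_flo (gser r * 8192) ((8192 + r) * 2 ^ 116) hq0
  rw [← hval] at f1 f2
  have e3 : ((gser r * 8192 : ℕ) : ℝ) / (((8192 + r) * 2 ^ 116 : ℕ) : ℝ) =
      (gser r : ℝ) / (x * 2 ^ 116) := by
    have e4 : (8192 + (r : ℝ)) = 8192 * x := by
      rw [hx]
      ring
    have e5 : (((8192 + r) * 2 ^ 116 : ℕ) : ℝ) = 8192 * x * 2 ^ 116 := by
      rw [Nat.cast_mul, Nat.cast_add, Nat.cast_pow, ← e4]
      norm_num
    have e6 : ((gser r * 8192 : ℕ) : ℝ) = gser r * 8192 := by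
      rw [Nat.cast_mul]
      norm_num
    rw [e5, e6, mul_comm (8192 : ℝ) x, mul_assoc, mul_comm (8192 : ℝ) (2 ^ 116), ← mul_assoc]
    exact mul_div_mul_right _ _ (by norm_num)
  rw [e3] at f1 f2
  have g1 : (gser r : ℝ) / (x * 2 ^ 116) ≤ 256 * S0 := by
    rw [div_le_iff₀ (by positivity)]
    calc (gser r : ℝ) ≤ 2 ^ 124 * (x * S0) := c2
      _ = 256 * S0 * (x * 2 ^ 116) := by ring
  have g2 : (256 - 212 / 2 ^ 116) * S0 ≤ (gser r : ℝ) / (x * 2 ^ 116) := by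
    rw [le_div_iff₀ (by positivity)]
    have e7 : (256 - 212 / 2 ^ 116) * S0 * (x * 2 ^ 116) = (2 ^ 124 - 212) * (x * S0) := by
      ring
    rw [e7]
    exact c1
  rw [abs_le] at hS
  obtain ⟨s1, s2⟩ := hS
  have hgpos : 0 < g := by
    have : (0 : ℝ) < 2 ^ 109 := by positivity
    linarith
  have main : |(gent r : ℝ) - 256 * g| ≤ 2⁻¹ ^ 106 * (256 * g) := by
    rw [abs_le]
    norm_num at s1 s2 b1 g2 ⊢
    constructor <;> nlinarith
  rw [abs_le] at main
  have hh : (2⁻¹ : ℝ) ^ 106 * (256 * g) ≤ 1 / 2 * (256 * g) := by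
    refine mul_le_mul_of_nonneg_right ?_ (by positivity)
    norm_num
  have p1 : (2 : ℝ) ^ 109 = 2 * 2 ^ 108 := by norm_num
  have p2 : (2 : ℝ) ^ 119 = 2 * 2 ^ 118 := by norm_num
  have p3 : (0 : ℝ) < 2 ^ 118 := by positivity
  have h5 : (2 : ℝ) ^ 108 ≤ gent r := by linarith [main.1]
  have h6 : (gent r : ℝ) < 2 ^ 119 := by linarith [main.2]
  refine ⟨abs_le.2 main, ?_, ?_⟩
  · have h7 : ((2 ^ 108 : ℕ) : ℝ) ≤ gent r := by rw [Nat.cast_pow]; exact h5
    exact_mod_cast h7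
  · have h7 : (gent r : ℝ) < ((2 ^ 119 : ℕ) : ℝ) := by rw [Nat.cast_pow]; exact h6
    exact_mod_cast h7

end Pool.Agent.Helper5.P705
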